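import Mathlib

/-!
# Project TS (MP_b907b5_co): totally separable packings of cylinders over planar convex bodies

Statements of the pieces. Nothing is proved here.
-/

set_option autoImplicit false
open MeasureTheory Set Filter Topology
open scoped Pointwise ENNReal

namespace Pool.Agent.E8helper59.TS

/-- centrally symmetric planar convex bodies -/
structure Bod (B : Set (ℝ × ℝ)) : Prop where
  comp : IsCompact B
  conv : Convex ℝ B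
  int : (interior B).Nonempty
  symm : ∀ p ∈ B, -p ∈ B

/-- every parallelogram with centre `0` that contains `B` has area at least `A` -/
def Cap (A : ℝ) (B : Set (ℝ × ℝ)) : Prop :=
  ∀ L : (ℝ × ℝ) ≃L[ℝ] (ℝ × ℝ), (∀ p ∈ B, |(L p).1| ≤ 1 / 2 ∧ |(L p).2| ≤ 1 / 2) →
    A * |LinearMap.det ((L : (ℝ × ℝ) →L[ℝ] (ℝ × ℝ)) : (ℝ × ℝ) →ₗ[ℝ] (ℝ × ℝ))| ≤ 1

/-- the union of the two pieces -/
def Two (B C : Set (ℝ × ℝ)) : Set (ℝ × ℝ) :=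
  ((C ∩ {p | p.1 ≤ 0}) + B) ∪ ((C ∩ {p | 1 ≤ p.1}) + B)

/-- the part of the strip `|x| < 1/2` above `B` and below the line `y = m x + h` -/
def Corner (B : Set (ℝ × ℝ)) (m h : ℝ) : Set (ℝ × ℝ) :=
  {q | |q.1| < 1 / 2 ∧ q.2 - m * q.1 ≤ h ∧ ∀ y, (q.1, y) ∈ B → y < q.2}

/-- TS0. The area of the corner. -/
def S_COR : Prop :=
  ∀ (B : Set (ℝ × ℝ)) (m h : ℝ), Bod B → (∀ p ∈ B, |p.1| ≤ 1 / 2) → (∃ p ∈ B, p.1 = 1 / 2) →
    (∀ p ∈ B, p.2 - m * p.1 ≤ h) →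
    MeasurableSet (Corner B m h) ∧ volume (Corner B m h) ≠ ⊤ ∧
      2 * (volume (Corner B m h)).toReal + (volume B).toReal = 2 * h

/-- TS1. The part of `C + B` above the two pieces. -/
def S_TOP : Prop :=
  ∀ (A : ℝ) (B C : Set (ℝ × ℝ)), Bod B → (∀ p ∈ B, |p.1| ≤ 1 / 2) → (∃ p ∈ B, p.1 = 1 / 2) →
    (∀ m h : ℝ, (∀ p ∈ B, p.2 - m * p.1 ≤ h) → A ≤ 2 * h) →
    IsCompact C → Convex ℝ C → (∃ p ∈ C, p.1 ≤ 0) → (∃ p ∈ C, 1 ≤ p.1) →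
    ∃ G : Set (ℝ × ℝ), MeasurableSet G ∧ G ⊆ C + B ∧
      (A - (volume B).toReal) / 2 ≤ (volume G).toReal ∧
      ∀ x y : ℝ, (x, y) ∈ G → (∃ y', (x, y') ∈ Two B C) ∧ ∀ y', (x, y') ∈ Two B C → y' < y

/-- TS2. The step, in the direction of the first axis. -/
def S_STEP : Prop :=
  ∀ (A : ℝ) (B C : Set (ℝ × ℝ)), Bod B → (∀ p ∈ B, |p.1| ≤ 1 / 2) → (∃ p ∈ B, p.1 = 1 / 2) →
    (∀ m h : ℝ, (∀ p ∈ B, p.2 - m * p.1 ≤ h) → A ≤ 2 * h) →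
    IsCompact C → Convex ℝ C → (∃ p ∈ C, p.1 ≤ 0) → (∃ p ∈ C, 1 ≤ p.1) →
    (volume ((C ∩ {p | p.1 ≤ 0}) + B)).toReal + (volume ((C ∩ {p | 1 ≤ p.1}) + B)).toReal + A ≤
      (volume (C + B)).toReal + (volume B).toReal

/-- TS3. The step, in all directions. -/
def S_DIR : Prop :=
  ∀ (A : ℝ) (B C : Set (ℝ × ℝ)), Bod B → Cap A B → ∀ u : (ℝ × ℝ) →L[ℝ] ℝ,
    (∀ p ∈ B, |u p| ≤ 1 / 2) → (∃ p ∈ B, u p = 1 / 2) →
    IsCompact C → Convex ℝ C → ∀ c : ℝ, (∃ p ∈ C, u p ≤ c) → (∃ p ∈ C, c + 1 ≤ u p) →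
    (volume ((C ∩ {p | u p ≤ c}) + B)).toReal + (volume ((C ∩ {p | c + 1 ≤ u p}) + B)).toReal + A ≤
      (volume (C + B)).toReal + (volume B).toReal

/-- the members of `F` are separated by strips of width one (with respect to `B`), that avoid `F` -/
def Sep (B : Set (ℝ × ℝ)) (F : Finset (ℝ × ℝ)) : Prop :=
  ∀ t ∈ F, ∀ s ∈ F, t ≠ s → ∃ (u : (ℝ × ℝ) →L[ℝ] ℝ) (c : ℝ), (∀ p ∈ B, |u p| ≤ 1 / 2) ∧
    (∃ p ∈ B, u p = 1 / 2) ∧ u t ≤ c ∧ c + 1 ≤ u s ∧ ∀ r ∈ F, u r ≤ c ∨ c + 1 ≤ u r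

/-- TS4. The planar bound. -/
def S_FIN : Prop :=
  ∀ (A : ℝ) (B : Set (ℝ × ℝ)), 0 ≤ A → Bod B → Cap A B → ∀ (ρ : ℝ), (∀ p ∈ B, ‖p‖ ≤ ρ) →
    ∀ (R : ℝ) (F : Finset (ℝ × ℝ)), 0 ≤ R → Sep B F → (∀ t ∈ F, ‖t‖ ≤ R) →
      (F.card : ℝ) * A ≤ (2 * R + 2 * ρ) ^ 2 + A

/-- the ambient space `ℝ^(m+2)`, with the maximum norm -/
abbrev E (m : ℕ) : Type := (ℝ × ℝ) × (Fin m → ℝ)

/-- `K = D × [0,1]^m` -/
def Cyl (m : ℕ) (D : Set (ℝ × ℝ)) : Set (E m) := D ×ˢ Icc (0 : Fin m → ℝ) 1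

/-- half of the difference body -/
def Half (D : Set (ℝ × ℝ)) : Set (ℝ × ℝ) := {p | ∃ a ∈ D, ∃ b ∈ D, p = (1 / 2 : ℝ) • (a - b)}

/-- total separability: any two members of the family `t + K`, `t ∈ T`, are separated by a
hyperplane that is disjoint from the interior of every member -/
def TotSep {V : Type} [NormedAddCommGroup V] [NormedSpace ℝ V] (K T : Set V) : Prop :=
  ∀ t ∈ T, ∀ s ∈ T, t ≠ s → ∃ (f : V →L[ℝ] ℝ) (c : ℝ), f ≠ 0 ∧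
    (∀ x ∈ K, f (t + x) ≤ c) ∧ (∀ x ∈ K, c ≤ f (s + x)) ∧
    ∀ r ∈ T, ∀ y ∈ interior ((fun x => r + x) '' K), f y ≠ c

/-- TS5. Half of the difference body. -/
def S_HALF : Prop :=
  ∀ D : Set (ℝ × ℝ), IsCompact D → Convex ℝ D → (interior D).Nonempty → Bod (Half D)

/-- TS6. Slices of totally separable packings of a cylinder. -/
def S_SLICE : Prop :=
  ∀ (m : ℕ) (D : Set (ℝ × ℝ)) (T : Set (E m)), IsCompact D → Convex ℝ D →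
    (interior D).Nonempty → TotSep (Cyl m D) T → ∀ (z : Fin m → ℝ) (F : Finset (E m)),
      (∀ t ∈ F, t ∈ T ∧ ∀ i, t.2 i < z i ∧ z i < t.2 i + 1) →
      Sep (Half D) (F.image Prod.fst) ∧ Set.InjOn Prod.fst (F : Set (E m))

/-- TS7. Counting by integration over the slices. -/
def S_CNT : Prop :=
  ∀ (m : ℕ) (D : Set (ℝ × ℝ)) (A : ℝ), 0 ≤ A → IsCompact D → Convex ℝ D →
    (interior D).Nonempty → Cap A (Half D) → ∃ C : ℝ, 0 ≤ C ∧ ∀ T : Set (E m),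
      TotSep (Cyl m D) T → ∀ (R : ℝ) (F : Finset (E m)), 0 ≤ R →
        (∀ t ∈ F, t ∈ T ∧ (fun x => t + x) '' Cyl m D ⊆ Metric.closedBall 0 R) →
        (F.card : ℝ) * A ≤ (2 * R) ^ m * ((2 * R + C) ^ 2 + A)

/-- parallelotopes in `ℝ^(m+2)` -/
def Ptope (m : ℕ) (P : Set (E m)) : Prop :=
  ∃ (v : E m) (L : E m ≃L[ℝ] E m), P = (fun x => v + L x) '' Icc 0 1

/-- TS8. From parallelotopes around the cylinder to parallelograms around the base. -/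
def S_CAP : Prop :=
  ∀ (m : ℕ) (D : Set (ℝ × ℝ)) (P₀ : Set (E m)), IsCompact D → Convex ℝ D →
    (interior D).Nonempty → Ptope m P₀ →
    (∀ P : Set (E m), Ptope m P → Cyl m D ⊆ P → volume P₀ ≤ volume P) →
    0 < (volume P₀).toReal ∧ volume P₀ ≠ ⊤ ∧ Cap (volume P₀).toReal (Half D)

/-- TS9. The theorem. -/
def S_MAIN : Prop :=
  ∀ (m : ℕ) (D : Set (ℝ × ℝ)) (P₀ : Set (E m)), IsCompact D → Convex ℝ D →
    (interior D).Nonempty → Ptope m P₀ → Cyl m D ⊆ P₀ →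
    (∀ P : Set (E m), Ptope m P → Cyl m D ⊆ P → volume P₀ ≤ volume P) →
    ∀ T : Set (E m), TotSep (Cyl m D) T →
      limsup (fun R : ℝ =>
        (∑' t : {t : E m // t ∈ T ∧ (fun x => t + x) '' Cyl m D ⊆ Metric.closedBall 0 R},
          volume ((fun x => (t : E m) + x) '' Cyl m D)) /
            volume (Metric.closedBall (0 : E m) R)) atTop ≤
        volume (Cyl m D) / volume P₀

end Pool.Agent.E8helper59.TS
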