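import Mathlib

/-!
# General definitions for the statements about totally separable packings
-/

set_option autoImplicit false
open MeasureTheory Set Filter Topology
open scoped Pointwise ENNReal

namespace Pool.Agent.E8helper59.TSG

variable {V : Type} [NormedAddCommGroup V] [NormedSpace ℝ V]

/-- Any two members of the family `t + K`, `t ∈ T`, are separated by a hyperplane `f = c` that is
disjoint from the interior of every member, with a functional `f` in `Adm`. -/
def TotSepA (Adm : Set (V →L[ℝ] ℝ)) (K T : Set V) : Prop :=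
  ∀ t ∈ T, ∀ s ∈ T, t ≠ s → ∃ (f : V →L[ℝ] ℝ) (c : ℝ), f ≠ 0 ∧ f ∈ Adm ∧
    (∀ x ∈ K, f (t + x) ≤ c) ∧ (∀ x ∈ K, c ≤ f (s + x)) ∧
    ∀ r ∈ T, ∀ y ∈ interior ((fun x => r + x) '' K), f y ≠ c

/-- the images of `C` under the invertible affine maps -/
def AffIm (C P : Set V) : Prop := ∃ (v : V) (L : V ≃L[ℝ] V), P = (fun x => v + L x) '' C

/-- `P₀` has the smallest volume among the affine images of `C` that contain `K` -/
def Smallest [MeasureSpace V] (C K P₀ : Set V) : Prop :=
  AffIm C P₀ ∧ K ⊆ P₀ ∧ ∀ P, AffIm C P → K ⊆ P → volume P₀ ≤ volume P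

/-- the upper density of the family `t + K`, `t ∈ T`: the limes superior, over the balls with centre
`0` of the norm of `V` (cubes, for the maximum norm), of the total volume of the members contained in
the ball, divided by the volume of the ball -/
noncomputable def density [MeasureSpace V] (K T : Set V) : ℝ≥0∞ :=
  limsup (fun R : ℝ =>
    (∑' t : {t : V // t ∈ T ∧ (fun x => t + x) '' K ⊆ Metric.closedBall 0 R},
      volume ((fun x => (t : V) + x) '' K)) / volume (Metric.closedBall (0 : V) R)) atTop

/-- the functionals that depend on one factor only, for a decomposition `Λ` into planes and lines -/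
def OneFactor {k m : ℕ} (Λ : V → (Fin k → ℝ × ℝ) × (Fin m → ℝ)) : Set (V →L[ℝ] ℝ) :=
  {f | (∃ (i : Fin k) (u : (ℝ × ℝ) →L[ℝ] ℝ), ∀ x, f x = u ((Λ x).1 i)) ∨
    ∃ (j : Fin m) (a : ℝ), ∀ x, f x = a * (Λ x).2 j}

/-- the multiples of the functionals `f i` -/
def Multiples {n : ℕ} (f : Fin n → V →L[ℝ] ℝ) : Set (V →L[ℝ] ℝ) :=
  {g | ∃ (i : Fin n) (a : ℝ), ∀ x, g x = a * f i x}

end Pool.Agent.E8helper59.TSG
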