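import Pool.Agent.E8helper59.TS.Transp

set_option autoImplicit false
open MeasureTheory Set Filter Topology
open scoped Pointwise ENNReal

namespace Pool.Agent.E8helper59.TSG

open Pool.Agent.E8helper59.TS

lemma iso_symm_apply (d : ℕ) (x : G 0 d) : (iso d).symm x = x.2 := rfl

lemma iso_Icc (d : ℕ) : (iso d : (Fin d → ℝ) → G 0 d) '' Icc 0 1 = Icc 0 1 := by
  ext x
  constructor
  · rintro ⟨y, hy, rfl⟩
    rw [iso_apply]
    refine ⟨Prod.mk_le_mk.2 ⟨le_of_eq (Subsingleton.elim _ _), hy.1⟩, Prod.mk_le_mk.2 ⟨le_of_eq (Subsingleton.elim _ _), hy.2⟩⟩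
  · intro hx
    refine ⟨x.2, ⟨hx.1.2, hx.2.2⟩, ?_⟩
    rw [iso_apply]
    exact Prod.ext (Subsingleton.elim _ _) rfl

lemma affIm_iso (d : ℕ) (P : Set (Fin d → ℝ)) (hP : AffIm (Icc 0 1) P) :
    PtopeG 0 d ((iso d : (Fin d → ℝ) → G 0 d) '' P) := by
  obtain ⟨v, L, rfl⟩ := hP
  refine ⟨iso d v, ((iso d).symm.toContinuousLinearEquiv.trans L).trans (iso d).toContinuousLinearEquiv, ?_⟩
  rw [← iso_Icc, image_image, image_image]
  apply image_congr
  intro x _
  simp

lemma affIm_iso' (d : ℕ) (P : Set (G 0 d)) (hP : PtopeG 0 d P) :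
    AffIm (Icc 0 1) ((iso d).symm '' P) := by
  obtain ⟨v, L, rfl⟩ := hP
  refine ⟨(iso d).symm v, ((iso d).toContinuousLinearEquiv.trans L).trans (iso d).symm.toContinuousLinearEquiv, ?_⟩
  rw [← iso_Icc, image_image, image_image]
  apply image_congr
  intro x _
  simp

lemma smallest_iso (d : ℕ) (K P₀ : Set (Fin d → ℝ)) (h : Smallest (Icc 0 1) K P₀) :
    PtopeG 0 d (iso d '' P₀) ∧ iso d '' K ⊆ iso d '' P₀ ∧
      ∀ P, PtopeG 0 d P → iso d '' K ⊆ P → volume (iso d '' P₀) ≤ volume P := by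
  refine ⟨affIm_iso d P₀ h.1, image_mono h.2.1, fun P hP hKP => ?_⟩
  have h1 := h.2.2 _ (affIm_iso' d P hP) (by
    intro x hx
    exact ⟨iso d x, hKP ⟨x, hx, rfl⟩, by simp⟩)
  rw [vol_image _ (iso_mp d)]
  have h2 : (iso d : (Fin d → ℝ) → G 0 d) '' ((iso d).symm '' P) = P := by
    rw [image_image]
    simp
  calc volume P₀ ≤ volume ((iso d).symm '' P) := h1
    _ = volume ((iso d : (Fin d → ℝ) → G 0 d) '' ((iso d).symm '' P)) :=
      (vol_image _ (iso_mp d) _).symm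
    _ = volume P := by rw [h2]

lemma totSep_iso (d n : ℕ) (f : Fin n → (Fin d → ℝ) →L[ℝ] ℝ) (K T : Set (Fin d → ℝ))
    (h : TotSepA (Multiples f) K T) :
    TotSepF d n (fun i => (f i).comp ((iso d).symm.toContinuousLinearEquiv : G 0 d →L[ℝ] (Fin d → ℝ)))
      (iso d '' K) (iso d '' T) := by
  rintro _ ⟨t, ht, rfl⟩ _ ⟨s, hs, rfl⟩ hne
  obtain ⟨g, c, hg, ⟨i, a, hga⟩, h1, h2, h3⟩ := h t ht s hs (fun e => hne (by rw [e]))
  refine ⟨g.comp ((iso d).symm.toContinuousLinearEquiv : G 0 d →L[ℝ] (Fin d → ℝ)), c, ?_, ⟨i, a, ?_⟩, ?_, ?_, ?_⟩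
  · intro h0
    apply hg
    ext x
    have := congrArg (fun F : G 0 d →L[ℝ] ℝ => F (iso d x)) h0
    simpa using this
  · intro x
    simp [hga]
  · rintro _ ⟨x, hx, rfl⟩
    have := h1 x hx
    simpa [← map_add] using this
  · rintro _ ⟨x, hx, rfl⟩
    have := h2 x hx
    simpa [← map_add] using this
  · rintro _ ⟨r, hr, rfl⟩ y hy
    rw [image_trans] at hy
    have h4 : interior ((iso d : (Fin d → ℝ) → G 0 d) '' ((fun x => r + x) '' K)) =
        (iso d : (Fin d → ℝ) → G 0 d) '' interior ((fun x => r + x) '' K) :=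
      ((iso d).toHomeomorph.image_interior _).symm
    rw [h4] at hy
    obtain ⟨z, hz, rfl⟩ := hy
    have := h3 r hr z hz
    simpa using this

/-- the spanning case -/
theorem span_case (hM : S_MAIN4) (d : ℕ) (f : Fin (d + 2) → (Fin d → ℝ) →L[ℝ] ℝ)
    (K P₀ T : Set (Fin d → ℝ)) (hK : IsCompact K) (hK1 : Convex ℝ K) (hK2 : (interior K).Nonempty)
    (hf : ∀ x, (∀ i, f i x = 0) → x = 0) (hP : Smallest (Icc 0 1) K P₀)
    (hT : TotSepA (Multiples f) K T) : density K T ≤ volume K / volume P₀ := by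
  obtain ⟨hP1, hP2, hP3⟩ := smallest_iso d K P₀ hP
  have hint : (interior ((iso d : (Fin d → ℝ) → G 0 d) '' K)).Nonempty := by
    have h4 : interior ((iso d : (Fin d → ℝ) → G 0 d) '' K) =
        (iso d : (Fin d → ℝ) → G 0 d) '' interior K :=
      ((iso d).toHomeomorph.image_interior _).symm
    rw [h4]
    exact hK2.image _
  have hconv : Convex ℝ ((iso d : (Fin d → ℝ) → G 0 d) '' K) :=
    hK1.linear_image ((iso d).toLinearEquiv : (Fin d → ℝ) →ₗ[ℝ] G 0 d)
  have h := hM d (fun i => (f i).comp ((iso d).symm.toContinuousLinearEquiv : G 0 d →L[ℝ] (Fin d → ℝ)))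
    (iso d '' K) (iso d '' P₀) (hK.image (iso d).continuous) hconv hint (by
      intro x hx
      have h5 := hf ((iso d).symm x) (fun i => by simpa using hx i)
      have h6 := congrArg (iso d) h5
      simpa using h6) hP1 hP2 hP3 (iso d '' T) (totSep_iso d (d + 2) f K T hT)
  rw [vol_image _ (iso_mp d), vol_image _ (iso_mp d)] at h
  have h7 := density_image (iso d) (iso_mp d) K T
  unfold density at h7 ⊢
  rw [← h7]
  exact h

end Pool.Agent.E8helper59.TSG
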