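import Pool.Agent.E8helper59.TS.Stm

/-!
# Project TS, second part: affine images of cylinders, and bodies between a cylinder and its
smallest circumscribed parallelotope. Nothing is proved here.
-/

set_option autoImplicit false
open MeasureTheory Set Filter Topology
open scoped Pointwise ENNReal

namespace Pool.Agent.E8helper59.TS

/-- TS11. The planar bound, fine form. -/
def S_FIN2 : Prop :=
  ∀ (A : ℝ) (B : Set (ℝ × ℝ)), Bod B → Cap A B → ∀ F : Finset (ℝ × ℝ), F.Nonempty → Sep B F →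
    (F.card : ℝ) * A + (volume B).toReal ≤
      (volume (convexHull ℝ (F : Set (ℝ × ℝ)) + B)).toReal + A

/-- TS12. Counting in convex windows. -/
def S_CNT2 : Prop :=
  ∀ (m : ℕ) (D : Set (ℝ × ℝ)) (A : ℝ), 0 ≤ A → IsCompact D → Convex ℝ D →
    (interior D).Nonempty → Cap A (Half D) → ∃ C : ℝ, 0 ≤ C ∧ ∀ T : Set (E m),
      TotSep (Cyl m D) T → ∀ (W : Set (E m)) (F : Finset (E m)), IsCompact W → Convex ℝ W →
        (∀ t ∈ F, t ∈ T ∧ (fun x => t + x) '' Cyl m D ⊆ W) →
        (F.card : ℝ) * A ≤ (volume (W + Metric.closedBall 0 C)).toReal +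
          A * (volume (Prod.snd '' W)).toReal

/-- an affine image of the cylinder -/
def ACyl (m : ℕ) (D : Set (ℝ × ℝ)) (v : E m) (L : E m ≃L[ℝ] E m) : Set (E m) :=
  (fun x => v + L x) '' Cyl m D

/-- TS13. Total separability passes to an affine image of a cylinder inside the body. -/
def S_RED : Prop :=
  ∀ (m : ℕ) (D : Set (ℝ × ℝ)) (v : E m) (L : E m ≃L[ℝ] E m) (K T : Set (E m)),
    ACyl m D v L ⊆ K → TotSep K T → TotSep (Cyl m D) (L.symm '' T)

/-- TS14. From parallelotopes around the affine image to parallelograms around the base. -/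
def S_CAP2 : Prop :=
  ∀ (m : ℕ) (D : Set (ℝ × ℝ)) (v : E m) (L : E m ≃L[ℝ] E m) (P₀ : Set (E m)),
    IsCompact D → Convex ℝ D → (interior D).Nonempty → Ptope m P₀ →
    (∀ P : Set (E m), Ptope m P → ACyl m D v L ⊆ P → volume P₀ ≤ volume P) →
    0 < (volume P₀).toReal ∧ volume P₀ ≠ ⊤ ∧
      Cap ((volume P₀).toReal / |LinearMap.det ((L : E m →L[ℝ] E m) : E m →ₗ[ℝ] E m)|) (Half D)

/-- TS15. Counting, for bodies that contain an affine image of the cylinder. -/
def S_CNT3 : Prop :=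
  ∀ (m : ℕ) (D : Set (ℝ × ℝ)) (v : E m) (L : E m ≃L[ℝ] E m) (K P₀ : Set (E m)),
    IsCompact D → Convex ℝ D → (interior D).Nonempty → IsCompact K → ACyl m D v L ⊆ K →
    Ptope m P₀ → (∀ P : Set (E m), Ptope m P → ACyl m D v L ⊆ P → volume P₀ ≤ volume P) →
    ∃ C : ℝ, 0 ≤ C ∧ ∀ T : Set (E m), TotSep K T → ∀ (R : ℝ) (F : Finset (E m)), 0 ≤ R →
      (∀ t ∈ F, t ∈ T ∧ (fun x => t + x) '' K ⊆ Metric.closedBall 0 R) →
      (F.card : ℝ) * (volume P₀).toReal ≤ (2 * R + C) ^ (m + 2) + C * (R + 1) ^ m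

/-- TS16. The theorem, general form. -/
def S_MAIN2 : Prop :=
  ∀ (m : ℕ) (D : Set (ℝ × ℝ)) (v : E m) (L : E m ≃L[ℝ] E m) (K P₀ : Set (E m)),
    IsCompact D → Convex ℝ D → (interior D).Nonempty → IsCompact K → Convex ℝ K →
    ACyl m D v L ⊆ K → K ⊆ P₀ →
    Ptope m P₀ → (∀ P : Set (E m), Ptope m P → ACyl m D v L ⊆ P → volume P₀ ≤ volume P) →
    ∀ T : Set (E m), TotSep K T →
      limsup (fun R : ℝ =>
        (∑' t : {t : E m // t ∈ T ∧ (fun x => t + x) '' K ⊆ Metric.closedBall 0 R},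
          volume ((fun x => (t : E m) + x) '' K)) /
            volume (Metric.closedBall (0 : E m) R)) atTop ≤
        volume K / volume P₀

end Pool.Agent.E8helper59.TS
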