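import Pool.Agent.E8helper59.TS.Stm

/-!
# Project TS, third part: all convex bodies, hyperplanes parallel to all but one factor of a
decomposition of the space into planes and lines. Nothing is proved here.
-/

set_option autoImplicit false
open MeasureTheory Set Filter Topology
open scoped Pointwise ENNReal

namespace Pool.Agent.E8helper59.TS

/-- `ℝ^(2k+m)` as a product of `k` planes and `m` lines -/
abbrev G (k m : ℕ) : Type := (Fin k → ℝ × ℝ) × (Fin m → ℝ)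

/-- functionals that depend on one factor only -/
def Spl (k m : ℕ) (f : G k m →L[ℝ] ℝ) : Prop :=
  (∃ (i : Fin k) (u : (ℝ × ℝ) →L[ℝ] ℝ), ∀ x, f x = u (x.1 i)) ∨
    ∃ (j : Fin m) (a : ℝ), ∀ x, f x = a * x.2 j

/-- total separability by hyperplanes that are parallel to all but one factor of the
decomposition given by `Λ` -/
def TotSepS (k m : ℕ) (Λ : G k m ≃L[ℝ] G k m) (K T : Set (G k m)) : Prop :=
  ∀ t ∈ T, ∀ s ∈ T, t ≠ s → ∃ (f : G k m →L[ℝ] ℝ) (c : ℝ), f ≠ 0 ∧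
    (∃ g : G k m →L[ℝ] ℝ, Spl k m g ∧ ∀ x, f x = g (Λ x)) ∧
    (∀ x ∈ K, f (t + x) ≤ c) ∧ (∀ x ∈ K, c ≤ f (s + x)) ∧
    ∀ r ∈ T, ∀ y ∈ interior ((fun x => r + x) '' K), f y ≠ c

/-- parallelotopes -/
def PtopeG (k m : ℕ) (P : Set (G k m)) : Prop :=
  ∃ (v : G k m) (L : G k m ≃L[ℝ] G k m), P = (fun x => v + L x) '' Icc 0 1

/-- the projection of `K` to the `i`-th plane -/
def Pr (k m : ℕ) (i : Fin k) (K : Set (G k m)) : Set (ℝ × ℝ) := (fun x : G k m => x.1 i) '' K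

/-- lower bounds for the areas of the parallelograms around the projections, and for the widths -/
def Dat (k m : ℕ) (K : Set (G k m)) (A : Fin k → ℝ) (w : Fin m → ℝ) : Prop :=
  (∀ i, 0 < A i ∧ Cap (A i) (Half (Pr k m i K))) ∧
    ∀ j, 0 < w j ∧ ∃ x ∈ K, ∃ y ∈ K, w j ≤ x.2 j - y.2 j

/-- TS21. Separations of several types. -/
def S_PROD : Prop :=
  ∀ (α ι : Type) [Fintype ι] (F : Finset α) (H : ι → Set (Set α)) (b : ι → ℝ),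
    (∀ t ∈ F, ∀ s ∈ F, t ≠ s → ∃ i, ∃ S ∈ H i, t ∈ S ∧ s ∉ S) → (∀ i, 0 ≤ b i) →
    (∀ i, ∀ F' ⊆ F, (∀ t ∈ F', ∀ s ∈ F', t ≠ s →
      ∃ S ∈ H i, (t ∈ S ∧ s ∉ S) ∨ (s ∈ S ∧ t ∉ S)) → (F'.card : ℝ) ≤ b i) →
    (F.card : ℝ) ≤ ∏ i, b i

/-- TS22. Separations of a planar type. -/
def S_PLANE : Prop :=
  ∀ (k m : ℕ) (K : Set (G k m)) (i : Fin k) (A : ℝ), IsCompact K → Convex ℝ K →
    (interior K).Nonempty → 0 < A → Cap A (Half (Pr k m i K)) → ∃ C : ℝ, 0 ≤ C ∧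
    ∀ (F : Finset (G k m)) (y : G k m) (ℓ : ℝ), 0 ≤ ℓ → (∀ t ∈ F, t ∈ Metric.closedBall y ℓ) →
      (∀ t ∈ F, ∀ s ∈ F, t ≠ s → ∃ (u : (ℝ × ℝ) →L[ℝ] ℝ) (c : ℝ), u ≠ 0 ∧
        (((∀ x ∈ K, u (t.1 i + x.1 i) ≤ c) ∧ ∀ x ∈ K, c ≤ u (s.1 i + x.1 i)) ∨
          ((∀ x ∈ K, u (s.1 i + x.1 i) ≤ c) ∧ ∀ x ∈ K, c ≤ u (t.1 i + x.1 i))) ∧
        ∀ r ∈ F, (∀ x ∈ K, u (r.1 i + x.1 i) ≤ c) ∨ ∀ x ∈ K, c ≤ u (r.1 i + x.1 i)) →
      (F.card : ℝ) * A ≤ (2 * ℓ + C) ^ 2 + A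

/-- TS23. Separations of a linear type. -/
def S_LINE : Prop :=
  ∀ (k m : ℕ) (j : Fin m) (w : ℝ) (F : Finset (G k m)) (y : G k m) (ℓ : ℝ), 0 < w → 0 ≤ ℓ →
    (∀ t ∈ F, t ∈ Metric.closedBall y ℓ) →
      (∀ t ∈ F, ∀ s ∈ F, t ≠ s → w ≤ |t.2 j - s.2 j|) → (F.card : ℝ) * w ≤ 2 * ℓ + w

/-- TS24. The bound in a box (in the coordinates of the decomposition). -/
def S_BOX : Prop :=
  ∀ (k m : ℕ) (K T : Set (G k m)) (A : Fin k → ℝ) (w : Fin m → ℝ), IsCompact K → Convex ℝ K →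
    (interior K).Nonempty → TotSepS k m (ContinuousLinearEquiv.refl ℝ (G k m)) K T →
    Dat k m K A w → ∃ C : ℝ, 0 ≤ C ∧ ∀ (F : Finset (G k m)) (y : G k m) (ℓ : ℝ), 0 ≤ ℓ →
      (∀ t ∈ F, t ∈ T ∧ t ∈ Metric.closedBall y ℓ) →
      (F.card : ℝ) * ((∏ i, A i) * ∏ j, w j) ≤
        (∏ i, ((2 * ℓ + C) ^ 2 + A i)) * ∏ j, (2 * ℓ + w j)

/-- TS25. The data of a smallest parallelotope. -/
def S_VOLG : Prop :=
  ∀ (k m : ℕ) (K P₀ : Set (G k m)), IsCompact K → Convex ℝ K → (interior K).Nonempty →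
    PtopeG k m P₀ → (∀ P, PtopeG k m P → K ⊆ P → volume P₀ ≤ volume P) →
    0 < (volume P₀).toReal ∧ volume P₀ ≠ ⊤ ∧ ∃ (A : Fin k → ℝ) (w : Fin m → ℝ), Dat k m K A w ∧
      (volume P₀).toReal ≤ (∏ i, A i) * ∏ j, w j

/-- TS26. Averaging. -/
def S_AVG : Prop :=
  ∀ (k m : ℕ) (K T : Set (G k m)) (Λ : G k m ≃L[ℝ] G k m) (V₀ : ℝ), 0 < V₀ → IsCompact K →
    K.Nonempty →
    (∀ ε : ℝ, 0 < ε → ∃ ℓ : ℝ, 0 < ℓ ∧ ∀ (y : G k m) (F : Finset (G k m)),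
      (∀ t ∈ F, t ∈ T ∧ Λ t ∈ Metric.closedBall y ℓ) →
      (F.card : ℝ) * V₀ ≤ (1 + ε) * (volume (Λ.symm '' Metric.closedBall 0 ℓ)).toReal) →
    limsup (fun R : ℝ =>
      (∑' t : {t : G k m // t ∈ T ∧ (fun x => t + x) '' K ⊆ Metric.closedBall 0 R},
        volume ((fun x => (t : G k m) + x) '' K)) /
          volume (Metric.closedBall (0 : G k m) R)) atTop ≤
      volume K / ENNReal.ofReal V₀

/-- TS27. The theorem for all convex bodies. -/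
def S_MAIN3 : Prop :=
  ∀ (k m : ℕ) (Λ : G k m ≃L[ℝ] G k m) (K P₀ : Set (G k m)), IsCompact K → Convex ℝ K →
    (interior K).Nonempty → PtopeG k m P₀ → K ⊆ P₀ →
    (∀ P, PtopeG k m P → K ⊆ P → volume P₀ ≤ volume P) →
    ∀ T : Set (G k m), TotSepS k m Λ K T →
      limsup (fun R : ℝ =>
        (∑' t : {t : G k m // t ∈ T ∧ (fun x => t + x) '' K ⊆ Metric.closedBall 0 R},
          volume ((fun x => (t : G k m) + x) '' K)) /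
            volume (Metric.closedBall (0 : G k m) R)) atTop ≤
        volume K / volume P₀

end Pool.Agent.E8helper59.TS
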