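import Pool.Agent.E8helper59.TS.Stm3

/-!
# Project TS, fourth part: all convex bodies, at most `d + 2` directions of hyperplanes.
Nothing is proved here.
-/

set_option autoImplicit false
open MeasureTheory Set Filter Topology
open scoped Pointwise ENNReal

namespace Pool.Agent.E8helper59.TS

/-- the diamond -/
def Dia : Set (ℝ × ℝ) := {p | |p.1| + |p.2| ≤ 1 / 2}

/-- `t` and `s` are separated by a slab `c < g < c + 1` that avoids `F`, in this order -/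
def Slab {α : Type} (g : α → ℝ) (F : Finset α) (t s : α) : Prop :=
  ∃ c : ℝ, g t ≤ c ∧ c + 1 ≤ g s ∧ ∀ r ∈ F, g r ≤ c ∨ c + 1 ≤ g r

/-- TS31. Separation by slabs parallel to the axes in the plane. -/
def S_DIA : Prop :=
  ∀ F : Finset (ℝ × ℝ), F.Nonempty →
    (∀ t ∈ F, ∀ s ∈ F, t ≠ s → Slab Prod.fst F t s ∨ Slab Prod.fst F s t ∨
      Slab Prod.snd F t s ∨ Slab Prod.snd F s t) →
    (F.card : ℝ) ≤ (volume (convexHull ℝ (F : Set (ℝ × ℝ)) + Dia)).toReal + 1 / 2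

/-- the zonogon spanned by the vectors `a i` -/
def Zon (n : ℕ) (a : Fin n → ℝ × ℝ) : Set (ℝ × ℝ) :=
  {p | ∃ x : Fin n → ℝ, (∀ i, 0 ≤ x i ∧ x i ≤ 1) ∧ p = ∑ i, x i • a i}

/-- TS32. The area of a zonogon. -/
def S_ZON : Prop :=
  ∀ (n : ℕ) (a : Fin n → ℝ × ℝ), (volume (Zon n a)).toReal ≤
    ∑ i, ∑ j, if i < j then |(a i).1 * (a j).2 - (a i).2 * (a j).1| else 0

/-- the coefficients of the two further directions -/
def Coef (d : ℕ) (p q : Fin d → ℝ) : Prop :=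
  (∀ j, |p j| ≤ 1) ∧ (∀ j, |q j| ≤ 1) ∧ ∀ j k, |p j * q k - p k * q j| ≤ 1

/-- TS33. Points of a box that are separated in the two further directions. -/
def S_CELL : Prop :=
  ∀ (d : ℕ) (p q : Fin d → ℝ) (F : Finset (Fin d → ℝ)) (b ℓ : Fin d → ℝ), Coef d p q →
    (∀ j, 0 ≤ ℓ j) → (∀ t ∈ F, ∀ j, b j ≤ t j ∧ t j ≤ b j + ℓ j) →
    (∀ t ∈ F, ∀ s ∈ F, t ≠ s →
      Slab (fun y => ∑ j, p j * y j) F t s ∨ Slab (fun y => ∑ j, p j * y j) F s t ∨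
      Slab (fun y => ∑ j, q j * y j) F t s ∨ Slab (fun y => ∑ j, q j * y j) F s t) →
    (F.card : ℝ) ≤ 1 + ∑ j, ℓ j + ∑ j, ∑ k, if j < k then ℓ j * ℓ k else 0

/-- TS34. An inequality. -/
def S_PRD : Prop :=
  ∀ (d : ℕ) (ℓ : Fin d → ℝ), (∀ j, 0 ≤ ℓ j) →
    (1 + ∑ j, ℓ j + ∑ j, ∑ k, if j < k then ℓ j * ℓ k else 0) ≤ ∏ j, (1 + ℓ j)

/-- TS35. Points of a box that are separated in the directions of the axes and in two more. -/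
def S_CNTD : Prop :=
  ∀ (d : ℕ) (p q : Fin d → ℝ) (F : Finset (Fin d → ℝ)) (b ℓ : Fin d → ℝ), Coef d p q →
    (∀ j, 0 ≤ ℓ j) → (∀ t ∈ F, ∀ j, b j ≤ t j ∧ t j ≤ b j + ℓ j) →
    (∀ t ∈ F, ∀ s ∈ F, t ≠ s →
      (∃ j, Slab (fun y : Fin d → ℝ => y j) F t s ∨ Slab (fun y : Fin d → ℝ => y j) F s t) ∨
      Slab (fun y => ∑ j, p j * y j) F t s ∨ Slab (fun y => ∑ j, p j * y j) F s t ∨
      Slab (fun y => ∑ j, q j * y j) F t s ∨ Slab (fun y => ∑ j, q j * y j) F s t) →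
    (F.card : ℝ) ≤ ∏ j, (1 + ℓ j)

/-- TS36. A basis of largest determinant among `n` vectors. -/
def S_JMAX : Prop :=
  ∀ (d n : ℕ) (u : Fin n → Fin d → ℝ), Submodule.span ℝ (range u) = ⊤ →
    ∃ (J : Fin d → Fin n) (C : Fin n → Fin d → ℝ), LinearIndependent ℝ (fun j => u (J j)) ∧
      (∀ i, u i = ∑ j, C i j • u (J j)) ∧ (∀ i j, |C i j| ≤ 1) ∧
      ∀ i i' j k, |C i j * C i' k - C i k * C i' j| ≤ 1

/-- `T` is totally separable for `K` by hyperplanes with the directions `f i` -/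
def TotSepF (d n : ℕ) (f : Fin n → G 0 d →L[ℝ] ℝ) (K T : Set (G 0 d)) : Prop :=
  ∀ t ∈ T, ∀ s ∈ T, t ≠ s → ∃ (g : G 0 d →L[ℝ] ℝ) (c : ℝ), g ≠ 0 ∧
    (∃ (i : Fin n) (a : ℝ), ∀ x, g x = a * f i x) ∧
    (∀ x ∈ K, g (t + x) ≤ c) ∧ (∀ x ∈ K, c ≤ g (s + x)) ∧
    ∀ r ∈ T, ∀ y ∈ interior ((fun x => r + x) '' K), g y ≠ c

/-- TS37. The bound in a parallelotope. -/
def S_BOXF : Prop :=
  ∀ (d : ℕ) (f : Fin (d + 2) → G 0 d →L[ℝ] ℝ) (K P₀ : Set (G 0 d)), IsCompact K → Convex ℝ K →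
    (interior K).Nonempty → (∀ x, (∀ i, f i x = 0) → x = 0) →
    PtopeG 0 d P₀ → (∀ P, PtopeG 0 d P → K ⊆ P → volume P₀ ≤ volume P) →
    ∃ Λ : G 0 d ≃L[ℝ] G 0 d,
      (volume P₀).toReal *
        |LinearMap.det ((Λ : G 0 d →L[ℝ] G 0 d) : G 0 d →ₗ[ℝ] G 0 d)| ≤ 1 ∧
      ∀ T : Set (G 0 d), TotSepF d (d + 2) f K T →
        ∀ (F : Finset (G 0 d)) (y : G 0 d) (ℓ : ℝ), 0 ≤ ℓ →
          (∀ t ∈ F, t ∈ T ∧ Λ t ∈ Metric.closedBall y ℓ) → (F.card : ℝ) ≤ (1 + 2 * ℓ) ^ d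

/-- TS38. The theorem for at most `d + 2` directions. -/
def S_MAIN4 : Prop :=
  ∀ (d : ℕ) (f : Fin (d + 2) → G 0 d →L[ℝ] ℝ) (K P₀ : Set (G 0 d)), IsCompact K → Convex ℝ K →
    (interior K).Nonempty → (∀ x, (∀ i, f i x = 0) → x = 0) →
    PtopeG 0 d P₀ → K ⊆ P₀ → (∀ P, PtopeG 0 d P → K ⊆ P → volume P₀ ≤ volume P) →
    ∀ T : Set (G 0 d), TotSepF d (d + 2) f K T →
      limsup (fun R : ℝ =>
        (∑' t : {t : G 0 d // t ∈ T ∧ (fun x => t + x) '' K ⊆ Metric.closedBall 0 R},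
          volume ((fun x => (t : G 0 d) + x) '' K)) /
            volume (Metric.closedBall (0 : G 0 d) R)) atTop ≤
        volume K / volume P₀

end Pool.Agent.E8helper59.TS
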