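import Pool.Agent.E8helper59.TS.Transp

/-!
# Project TS, fifth part: directions that do not span. Nothing is proved here.
-/

set_option autoImplicit false
open MeasureTheory Set Filter Topology
open scoped Pointwise ENNReal

namespace Pool.Agent.E8helper59.TSG

/-- TS41. Counting when all the functionals vanish at a vector `x ≠ 0`. -/
def S_RANK : Prop :=
  ∀ (d n : ℕ) (f : Fin n → (Fin d → ℝ) →L[ℝ] ℝ) (K T : Set (Fin d → ℝ)), IsCompact K →
    Convex ℝ K → (interior K).Nonempty → (∃ x, x ≠ 0 ∧ ∀ i, f i x = 0) →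
    TotSepA (Multiples f) K T → ∃ C : ℝ, 0 ≤ C ∧
      ∀ (F : Finset (Fin d → ℝ)) (y : Fin d → ℝ) (ℓ : ℝ), 1 ≤ ℓ →
        (∀ t ∈ F, t ∈ T ∧ t ∈ Metric.closedBall y ℓ) → (F.card : ℝ) ≤ C * ℓ ^ (d - 1)

/-- TS42. The bound for the density in this case. -/
def S_LOW : Prop :=
  ∀ (d n : ℕ) (f : Fin n → (Fin d → ℝ) →L[ℝ] ℝ) (K P₀ T : Set (Fin d → ℝ)), IsCompact K →
    Convex ℝ K → (interior K).Nonempty → (∃ x, x ≠ 0 ∧ ∀ i, f i x = 0) →
    Smallest (Icc 0 1) K P₀ → TotSepA (Multiples f) K T → density K T ≤ volume K / volume P₀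

end Pool.Agent.E8helper59.TSG
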