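import Pool.Agent.E8helper59.TS.Stm

set_option autoImplicit false
open MeasureTheory Set Filter Topology
open scoped Pointwise ENNReal

namespace Pool.Agent.E8helper59.TS

lemma seg {S : Set (ℝ × ℝ)} (hS : Convex ℝ S) {p q : ℝ × ℝ} (hp : p ∈ S) (hq : q ∈ S) {x : ℝ}
    (h1 : p.1 ≤ x) (h2 : x ≤ q.1) (hlt : p.1 < q.1) :
    (x, p.2 + (x - p.1) / (q.1 - p.1) * (q.2 - p.2)) ∈ S := by
  have hd : 0 < q.1 - p.1 := by linarith
  have ha : 0 ≤ (x - p.1) / (q.1 - p.1) := div_nonneg (by linarith) hd.le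
  have hb : (x - p.1) / (q.1 - p.1) ≤ 1 := by rw [div_le_one hd]; linarith
  have h3 := hS hp hq (sub_nonneg.2 hb) ha (by ring)
  convert h3 using 1
  ext
  · simp only [Prod.fst_add, Prod.smul_fst, smul_eq_mul]
    field_simp
    ring
  · simp only [Prod.snd_add, Prod.smul_snd, smul_eq_mul]
    ring

lemma ovr {S : Set (ℝ × ℝ)} (hS : Convex ℝ S) {p q : ℝ × ℝ} (hp : p ∈ S) (hq : q ∈ S) {x : ℝ}
    (h1 : p.1 ≤ x) (h2 : x ≤ q.1) : ∃ y, (x, y) ∈ S := by
  rcases lt_or_ge p.1 q.1 with h | h
  · exact ⟨_, seg hS hp hq h1 h2 h⟩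
  · have : p.1 = x := by linarith
    exact ⟨p.2, by rw [← this]; exact hp⟩

lemma vert {S : Set (ℝ × ℝ)} (hS : Convex ℝ S) {x y1 y2 y : ℝ} (hp : (x, y1) ∈ S)
    (hq : (x, y2) ∈ S) (h1 : y1 ≤ y) (h2 : y ≤ y2) : (x, y) ∈ S := by
  rcases eq_or_lt_of_le (h1.trans h2) with h | h
  · have : y = y1 := by linarith
    rw [this]; exact hp
  · have hd : 0 < y2 - y1 := by linarith
    have ha : 0 ≤ (y - y1) / (y2 - y1) := div_nonneg (by linarith) hd.le
    have hb : (y - y1) / (y2 - y1) ≤ 1 := by rw [div_le_one hd]; linarith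
    have h3 := hS hp hq (sub_nonneg.2 hb) ha (by ring)
    convert h3 using 1
    ext
    · simp only [Prod.fst_add, Prod.smul_fst, smul_eq_mul]
      ring
    · simp only [Prod.snd_add, Prod.smul_snd, smul_eq_mul]
      field_simp
      ring

/-- the highest point over `x` -/
lemma topPt {C : Set (ℝ × ℝ)} (hCc : IsCompact C) {x : ℝ} (hne : ∃ y, (x, y) ∈ C) :
    ∃ b, (x, b) ∈ C ∧ ∀ y, (x, y) ∈ C → y ≤ b := by
  obtain ⟨y0, hy0⟩ := hne
  have hcl : IsClosed {p : ℝ × ℝ | p.1 = x} := isClosed_eq continuous_fst continuous_const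
  obtain ⟨p, hp, hmax⟩ := (hCc.inter_right hcl).exists_isMaxOn (f := fun p : ℝ × ℝ => p.2)
    ⟨(x, y0), hy0, rfl⟩ continuous_snd.continuousOn
  have hpx : p.1 = x := hp.2
  refine ⟨p.2, ?_, fun y hy => ?_⟩
  · rw [← hpx]; exact hp.1
  · exact hmax (a := (x, y)) ⟨hy, rfl⟩

theorem t_TOP (h : S_COR) : S_TOP := by
  intro A B C hB hB1 hB2 hA hCc hCv hC0 hC1
  obtain ⟨r, hr, hr1⟩ := hB2
  obtain ⟨c0, hc0, hc01⟩ := hC0
  obtain ⟨c1, hc1, hc11⟩ := hC1
  -- the section of `B` over `x`
  have hsec : ∀ x : ℝ, |x| < 1 / 2 → ∃ y, (x, y) ∈ B := by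
    intro x hx
    rw [abs_lt] at hx
    refine ovr hB.conv (hB.symm r hr) hr ?_ ?_
    · simp only [Prod.fst_neg]; linarith
    · linarith
  -- the top points
  obtain ⟨b, hb, hbtop⟩ := topPt hCc (ovr hCv hc0 hc1 hc01 (by linarith))
  obtain ⟨b1, hb1, hb1top⟩ := topPt hCc (ovr hCv hc0 hc1 (x := 1) (by linarith) hc11)
  obtain ⟨m, hm⟩ : ∃ m, m = b1 - b := ⟨_, rfl⟩
  have hb1e : b1 = b + m := by rw [hm]; ring
  subst hb1e
  -- the tangent point
  obtain ⟨q0, hq0, hq0max⟩ := hB.comp.exists_isMaxOn (f := fun p : ℝ × ℝ => p.2 - m * p.1)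
    ⟨r, hr⟩ (by fun_prop)
  obtain ⟨x0, y0⟩ := q0
  obtain ⟨hh, hhe⟩ : ∃ hh, hh = y0 - m * x0 := ⟨_, rfl⟩
  have hle : ∀ p ∈ B, p.2 - m * p.1 ≤ hh := fun p hp => by rw [hhe]; exact hq0max hp
  have hy0 : y0 = m * x0 + hh := by rw [hhe]; ring
  have hx0 := hB1 _ hq0
  simp only at hx0
  rw [abs_le] at hx0
  obtain ⟨hUm, hUf, hUv⟩ := h B m hh hB hB1 ⟨r, hr, hr1⟩ hle
  have hAh := hA m hh hle
  obtain ⟨U, hU⟩ : ∃ U, U = Corner B m hh := ⟨_, rfl⟩
  rw [← hU] at hUm hUf hUv
  have memU : ∀ x y, (x, y) ∈ U ↔ |x| < 1 / 2 ∧ y - m * x ≤ hh ∧ ∀ y', (x, y') ∈ B → y' < y := by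
    intro x y
    rw [hU]
    exact Iff.rfl
  have hsegC : ∀ s, 0 ≤ s → s ≤ 1 → (s, b + m * s) ∈ C := by
    intro s hs0 hs1
    have := seg hCv hb hb1 (x := s) hs0 hs1 (by norm_num)
    simp only at this
    convert this using 2
    ring
  have hCB : Convex ℝ (C + B) := hCv.add hB.conv
  have hline : ∀ x, x0 ≤ x → x ≤ x0 + 1 → (x, m * x + b + hh) ∈ C + B := by
    intro x hx1 hx2
    refine Set.mem_add.2 ⟨(x - x0, b + m * (x - x0)), hsegC _ (by linarith) (by linarith), (x0, y0), hq0, ?_⟩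
    rw [hy0]
    ext
    · simp
    · simp only [Prod.mk_add_mk]; ring
  -- `G`
  have hS1m : MeasurableSet {q : ℝ × ℝ | x0 ≤ q.1} := measurableSet_le measurable_const measurable_fst
  obtain ⟨G1, hG1⟩ : ∃ G1, G1 = (fun q : ℝ × ℝ => q + (0, -b)) ⁻¹' (U ∩ {q | x0 ≤ q.1}) := ⟨_, rfl⟩
  obtain ⟨G2, hG2⟩ : ∃ G2, G2 = (fun q : ℝ × ℝ => q + (-1, -(b + m))) ⁻¹' (U \ {q | x0 ≤ q.1}) := ⟨_, rfl⟩
  have mem1 : ∀ x y, (x, y) ∈ G1 ↔ (x, y - b) ∈ U ∧ x0 ≤ x := by
    intro x y
    rw [hG1]
    simp only [mem_preimage, Prod.mk_add_mk, add_zero, mem_inter_iff, mem_setOf_eq, ← sub_eq_add_neg]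
  have mem2 : ∀ x y, (x, y) ∈ G2 ↔ (x - 1, y - (b + m)) ∈ U ∧ x - 1 < x0 := by
    intro x y
    rw [hG2]
    simp only [mem_preimage, Prod.mk_add_mk, mem_diff, mem_setOf_eq, ← sub_eq_add_neg, not_le]
  have hG1m : MeasurableSet G1 := by
    rw [hG1]
    exact (hUm.inter hS1m).preimage (by fun_prop)
  have hG2m : MeasurableSet G2 := by
    rw [hG2]
    exact (hUm.diff hS1m).preimage (by fun_prop)
  have hv1 : volume G1 = volume (U ∩ {q : ℝ × ℝ | x0 ≤ q.1}) := by
    rw [hG1]; exact measure_preimage_add_right _ _ _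
  have hv2 : volume G2 = volume (U \ {q : ℝ × ℝ | x0 ≤ q.1}) := by
    rw [hG2]; exact measure_preimage_add_right _ _ _
  have hdisj : Disjoint G1 G2 := by
    rw [Set.disjoint_left]
    rintro ⟨x, y⟩ h3 h4
    rw [mem1, memU, abs_lt] at h3
    rw [mem2, memU, abs_lt] at h4
    linarith [h3.1.1.2, h4.1.1.1]
  have hvol : volume (G1 ∪ G2) = volume U := by
    rw [measure_union hdisj hG2m, hv1, hv2]
    exact measure_inter_add_diff U hS1m
  refine ⟨G1 ∪ G2, hG1m.union hG2m, ?_, ?_, ?_⟩
  · rintro ⟨x, y⟩ (h3 | h3)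
    · rw [mem1, memU] at h3
      obtain ⟨⟨hx, hyh, hyB⟩, hx0x⟩ := h3
      obtain ⟨yB, hyB'⟩ := hsec x hx
      have h4 := hyB yB hyB'
      rw [abs_lt] at hx
      refine vert hCB (y1 := b + yB) (y2 := m * x + b + hh) ?_ (hline x hx0x (by linarith)) (by linarith) (by linarith)
      refine Set.mem_add.2 ⟨(0, b), hb, (x, yB), hyB', ?_⟩
      simp
    · rw [mem2, memU] at h3
      obtain ⟨⟨hx, hyh, hyB⟩, hx0x⟩ := h3
      obtain ⟨yB, hyB'⟩ := hsec (x - 1) hx
      have h4 := hyB yB hyB'
      rw [abs_lt] at hx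
      refine vert hCB (y1 := b + m + yB) (y2 := m * x + b + hh) ?_ (hline x (by linarith) (by linarith)) (by linarith) (by linarith)
      refine Set.mem_add.2 ⟨(1, b + m), hb1, (x - 1, yB), hyB', ?_⟩
      simp
  · rw [hvol]
    linarith
  · rintro x y (h3 | h3)
    · rw [mem1, memU] at h3
      obtain ⟨⟨hx, hyh, hyB⟩, hx0x⟩ := h3
      obtain ⟨yB, hyB'⟩ := hsec x hx
      constructor
      · refine ⟨b + yB, Or.inl ?_⟩
        refine Set.mem_add.2 ⟨(0, b), ⟨hb, ?_⟩, (x, yB), hyB', ?_⟩
        · simp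
        · simp
      · rw [abs_lt] at hx
        rintro y' (h4 | h4)
        · obtain ⟨⟨x1, y1⟩, ⟨hc, hcx⟩, ⟨x2, y2⟩, hβ, he⟩ := Set.mem_add.1 h4
          simp only [mem_setOf_eq] at hcx
          rw [Prod.mk_add_mk, Prod.mk.injEq] at he
          obtain ⟨he1, he2⟩ := he
          -- (i)
          have i1 : y1 ≤ b + m * x1 := by
            have h5 := seg hCv hc hb1 (x := 0) hcx (by norm_num) (by simp only; linarith)
            simp only at h5
            have h6 := hbtop _ h5
            have h7 : 0 < 1 - x1 := by linarith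
            have h8 : (y1 + (0 - x1) / (1 - x1) * (b + m - y1)) * (1 - x1) ≤ b * (1 - x1) :=
              mul_le_mul_of_nonneg_right h6 h7.le
            have h9 : (y1 + (0 - x1) / (1 - x1) * (b + m - y1)) * (1 - x1) =
                y1 * (1 - x1) + (0 - x1) * (b + m - y1) := by
              field_simp
            rw [h9] at h8
            linarith
          -- (ii)
          have i2 : y2 < (y - b) + m * (x2 - x) := by
            have hx2 : x ≤ x2 := by linarith
            rcases eq_or_lt_of_le hx2 with h5 | h5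
            · subst h5
              have := hyB y2 hβ
              linarith
            · rcases eq_or_lt_of_le hx0x with h6 | h6
              · subst h6
                have := hyB y0 hq0
                linarith
              · have h7 := seg hB.conv hq0 hβ (x := x) h6.le h5.le (by simp only; linarith)
                simp only at h7
                have h8 := hyB _ h7
                have h9 : 0 < x2 - x0 := by linarith
                have h10 : (y0 + (x - x0) / (x2 - x0) * (y2 - y0)) * (x2 - x0) < (y - b) * (x2 - x0) :=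
                  mul_lt_mul_of_pos_right h8 h9
                have h11 : (y0 + (x - x0) / (x2 - x0) * (y2 - y0)) * (x2 - x0) =
                    y0 * (x2 - x0) + (x - x0) * (y2 - y0) := by
                  field_simp
                rw [h11] at h10
                have h12 : (x2 - x) * ((y - b) - m * (x - x0)) ≤ (x2 - x) * y0 :=
                  mul_le_mul_of_nonneg_left (by linarith) (by linarith)
                have h13 : (x - x0) * y2 < (x - x0) * ((y - b) + m * (x2 - x)) := by nlinarith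
                exact lt_of_mul_lt_mul_left h13 (by linarith)
          have : m * x1 + m * (x2 - x) = 0 := by rw [← he1]; ring
          linarith
        · exfalso
          obtain ⟨⟨x1, y1⟩, ⟨hc, hcx⟩, ⟨x2, y2⟩, hβ, he⟩ := Set.mem_add.1 h4
          simp only [mem_setOf_eq] at hcx
          rw [Prod.mk_add_mk, Prod.mk.injEq] at he
          have h5 := hB1 _ hβ
          simp only at h5
          rw [abs_le] at h5
          linarith [he.1]
    · rw [mem2, memU] at h3
      obtain ⟨⟨hx, hyh, hyB⟩, hx0x⟩ := h3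
      obtain ⟨yB, hyB'⟩ := hsec (x - 1) hx
      constructor
      · refine ⟨b + m + yB, Or.inr ?_⟩
        refine Set.mem_add.2 ⟨(1, b + m), ⟨hb1, ?_⟩, (x - 1, yB), hyB', ?_⟩
        · simp
        · simp
      · rw [abs_lt] at hx
        rintro y' (h4 | h4)
        · exfalso
          obtain ⟨⟨x1, y1⟩, ⟨hc, hcx⟩, ⟨x2, y2⟩, hβ, he⟩ := Set.mem_add.1 h4
          simp only [mem_setOf_eq] at hcx
          rw [Prod.mk_add_mk, Prod.mk.injEq] at he
          have h5 := hB1 _ hβ
          simp only at h5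
          rw [abs_le] at h5
          linarith [he.1]
        · obtain ⟨⟨x1, y1⟩, ⟨hc, hcx⟩, ⟨x2, y2⟩, hβ, he⟩ := Set.mem_add.1 h4
          simp only [mem_setOf_eq] at hcx
          rw [Prod.mk_add_mk, Prod.mk.injEq] at he
          obtain ⟨he1, he2⟩ := he
          -- (i)
          have i1 : y1 ≤ b + m * x1 := by
            have h5 := seg hCv hb hc (x := 1) (by norm_num) hcx (by simp only; linarith)
            simp only at h5
            have h6 := hb1top _ h5
            have h7 : 0 < x1 := by linarith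
            have h8 : (b + (1 - 0) / (x1 - 0) * (y1 - b)) * x1 ≤ (b + m) * x1 :=
              mul_le_mul_of_nonneg_right h6 h7.le
            have h9 : (b + (1 - 0) / (x1 - 0) * (y1 - b)) * x1 = b * x1 + (y1 - b) := by
              rw [sub_zero, sub_zero]
              field_simp
            rw [h9] at h8
            linarith
          -- (ii)
          have i2 : y2 < (y - (b + m)) + m * (x2 - (x - 1)) := by
            have hx2 : x2 ≤ x - 1 := by linarith
            rcases eq_or_lt_of_le hx2 with h5 | h5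
            · rw [h5] at hβ ⊢
              have := hyB y2 hβ
              linarith
            · have h7 := seg hB.conv hβ hq0 (x := x - 1) h5.le hx0x.le (by simp only; linarith)
              simp only at h7
              have h8 := hyB _ h7
              have h9 : 0 < x0 - x2 := by linarith
              have h10 : (y2 + (x - 1 - x2) / (x0 - x2) * (y0 - y2)) * (x0 - x2) < (y - (b + m)) * (x0 - x2) :=
                mul_lt_mul_of_pos_right h8 h9
              have h11 : (y2 + (x - 1 - x2) / (x0 - x2) * (y0 - y2)) * (x0 - x2) =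
                  y2 * (x0 - x2) + (x - 1 - x2) * (y0 - y2) := by
                field_simp
              rw [h11] at h10
              have h12 : (x - 1 - x2) * ((y - (b + m)) + m * (x0 - (x - 1))) ≤ (x - 1 - x2) * y0 :=
                mul_le_mul_of_nonneg_left (by linarith) (by linarith)
              have h13 : (x0 - (x - 1)) * y2 < (x0 - (x - 1)) * ((y - (b + m)) + m * (x2 - (x - 1))) := by nlinarith
              exact lt_of_mul_lt_mul_left h13 (by linarith)
          have : m * x1 + m * (x2 - (x - 1)) = m := by rw [← he1]; ring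
          linarith

end Pool.Agent.E8helper59.TS
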