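import Pool.Agent.E8helper59.TS.Gen
import Pool.Agent.E8helper59.TS.Stm4

set_option autoImplicit false
open MeasureTheory Set Filter Topology
open scoped Pointwise ENNReal

namespace Pool.Agent.E8helper59.TSG

section

variable {V V' : Type} [NormedAddCommGroup V] [NormedSpace ℝ V] [MeasureSpace V] [BorelSpace V]
  [NormedAddCommGroup V'] [NormedSpace ℝ V'] [MeasureSpace V'] [BorelSpace V']

lemma image_trans (e : V ≃ₗᵢ[ℝ] V') (t : V) (K : Set V) :
    (fun x => e t + x) '' (e '' K) = e '' ((fun x => t + x) '' K) := by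
  rw [image_image, image_image]
  simp

lemma vol_image (e : V ≃ₗᵢ[ℝ] V') (he : MeasurePreserving (e : V → V') volume volume) (S : Set V) :
    volume (e '' S) = volume S := by
  have h1 : MeasurableEmbedding (e : V → V') := e.toHomeomorph.measurableEmbedding
  have h2 := he.measure_preimage_emb h1 (e '' S)
  rw [preimage_image_eq _ e.injective] at h2
  exact h2.symm

lemma ball_image (e : V ≃ₗᵢ[ℝ] V') (R : ℝ) :
    (e : V → V') '' Metric.closedBall 0 R = Metric.closedBall 0 R := by
  rw [e.image_closedBall, map_zero]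

lemma density_image (e : V ≃ₗᵢ[ℝ] V') (he : MeasurePreserving (e : V → V') volume volume)
    (K T : Set V) : density (e '' K) (e '' T) = density K T := by
  unfold density
  congr 1
  funext R
  have h1 : volume (Metric.closedBall (0 : V') R) = volume (Metric.closedBall (0 : V) R) := by
    rw [← ball_image e R, vol_image e he]
  rw [h1]
  congr 1
  have hp : ∀ t : V, (t ∈ T ∧ (fun x => t + x) '' K ⊆ Metric.closedBall 0 R) ↔
      (e t ∈ (e : V → V') '' T ∧ (fun x => e t + x) '' (e '' K) ⊆ Metric.closedBall 0 R) := by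
    intro t
    rw [image_trans, ← ball_image e R, image_subset_image_iff e.injective,
      e.injective.mem_set_image]
  let E : {t : V // t ∈ T ∧ (fun x => t + x) '' K ⊆ Metric.closedBall 0 R} ≃
      {t : V' // t ∈ (e : V → V') '' T ∧ (fun x => t + x) '' (e '' K) ⊆ Metric.closedBall 0 R} :=
    e.toEquiv.subtypeEquiv hp
  rw [← E.tsum_eq]
  congr 1
  funext t
  have : ((E t : {t : V' // t ∈ (e : V → V') '' T ∧ (fun x => t + x) '' (e '' K) ⊆
      Metric.closedBall 0 R}) : V') = e t := rfl
  rw [this, image_trans, vol_image e he]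

end

/-- the isometry between the two models of `ℝ^d` -/
noncomputable def iso (d : ℕ) : (Fin d → ℝ) ≃ₗᵢ[ℝ] Pool.Agent.E8helper59.TS.G 0 d where
  toFun y := (0, y)
  invFun x := x.2
  map_add' x y := Prod.ext (Subsingleton.elim _ _) rfl
  map_smul' a x := Prod.ext (Subsingleton.elim _ _) rfl
  left_inv x := rfl
  right_inv x := by
    ext i
    · exact i.elim0
    · exact i.elim0
    · rfl
  norm_map' x := by
    change ‖((0 : Fin 0 → ℝ × ℝ), x)‖ = ‖x‖
    rw [Prod.norm_def]
    change max ‖(0 : Fin 0 → ℝ × ℝ)‖ ‖x‖ = ‖x‖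
    rw [norm_zero, max_eq_right (norm_nonneg x)]

lemma iso_apply (d : ℕ) (y : Fin d → ℝ) : iso d y = (0, y) := rfl

lemma iso_mp (d : ℕ) : MeasurePreserving (iso d : (Fin d → ℝ) → Pool.Agent.E8helper59.TS.G 0 d)
    volume volume := by
  refine ⟨(iso d).continuous.measurable, ?_⟩
  ext s hs
  rw [Measure.map_apply (iso d).continuous.measurable hs]
  have h1 : (volume : Measure (Pool.Agent.E8helper59.TS.G 0 d)) =
      (volume : Measure (Fin 0 → ℝ × ℝ)).prod (volume : Measure (Fin d → ℝ)) := rfl
  rw [h1, Measure.prod_apply hs]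
  rw [Measure.volume_pi_eq_dirac (fun i => i.elim0 : Fin 0 → ℝ × ℝ), lintegral_dirac]
  congr 1
  ext y
  simp only [mem_preimage, iso_apply]
  have : (0 : Fin 0 → ℝ × ℝ) = fun i => i.elim0 := by
    funext i
    exact i.elim0
  rw [this]

end Pool.Agent.E8helper59.TSG
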